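import Pool.Agent.H98.EH.Bds
import Pool.Agent.H24.EH.Defs

set_option autoImplicit false

namespace Pool.Agent.H98.EH
open Real Pool.EH

theorem FAgl_low' {p : ℝ} (hp : 0 < p) (hp1 : p < 1) {l : ℝ} (hl : rh l ≤ p / 2) {g : ℝ} (hg : 0 < g)
    (hg1 : g ≤ 1) : |FAgl p l g| ≤ 250 / p ^ 4 * rh l := by
  have hR := RR_pos hp hp1 l hg
  have hT := sinh_FA_pos hp hp1 l hg
  have hr := rh_pos l
  have hR1 := RR_ge_low hp hp1 hl g
  have hST := sinh_le_sinh_FA hp hp1 l hg
  have hS : 0 < Real.sinh g := Real.sinh_pos_iff.2 hg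
  obtain ⟨hl0, hl1, hl2⟩ := FAl_low hp hp1 hl hg hg1
  obtain ⟨hg0, hg2⟩ := FAg_low hp hp1 hl hg hg1
  have hX := cosh_FA_low hp hp1 hl hg hg1
  have hTX : Real.sinh (FA p l g) ≤ 5 / p := (Real.sinh_lt_cosh _).le.trans hX
  have hX0 := Real.cosh_pos (FA p l g)
  set T := Real.sinh (FA p l g) with hTd
  set X := Real.cosh (FA p l g) with hXd
  set R := RR p l g with hRd
  have e : FAgl p l g = rh l * FAg p l g / R - rh l * Real.sinh g / (R * T)
      - (p * T * FAg p l g * FAl p l g / R + X * FAg p l g * (FAl p l g / T)) := by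
    unfold FAgl DA EA
    rw [← hTd, ← hXd, ← hRd]
    field_simp
  have hRi : 1 / R ≤ 2 / p := by
    rw [div_le_div_iff₀ hR hp]; linarith
  have hRi0 : 0 ≤ 1 / R := by positivity
  have hlT : FAl p l g / T ≤ 2 / p ^ 2 * rh l := by
    rw [div_le_iff₀ hT]; exact hl2
  have hlT0 : 0 ≤ FAl p l g / T := by positivity
  -- term 1
  have t1 : rh l * FAg p l g / R ≤ 8 / p ^ 2 * rh l := by
    have : rh l * FAg p l g / R = rh l * (FAg p l g * (1 / R)) := by ring
    rw [this]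
    have h3 : FAg p l g * (1 / R) ≤ 4 / p * (2 / p) := mul_le_mul hg2 hRi hRi0 (by positivity)
    have h4 : rh l * (FAg p l g * (1 / R)) ≤ rh l * (4 / p * (2 / p)) :=
      mul_le_mul_of_nonneg_left h3 hr.le
    have h5 : rh l * (4 / p * (2 / p)) = 8 / p ^ 2 * rh l := by field_simp; ring
    linarith
  have t1' : 0 ≤ rh l * FAg p l g / R := by positivity
  have t2 : rh l * Real.sinh g / (R * T) ≤ 2 / p * rh l := by
    rw [div_le_iff₀ (by positivity)]
    have h3 : rh l * Real.sinh g ≤ rh l * T := mul_le_mul_of_nonneg_left hST hr.le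
    have h4 : rh l * T = 2 / p * rh l * (p / 2 * T) := by field_simp
    have h5 : 2 / p * rh l * (p / 2 * T) ≤ 2 / p * rh l * (R * T) := by
      apply mul_le_mul_of_nonneg_left _ (by positivity)
      exact mul_le_mul_of_nonneg_right hR1 hT.le
    linarith
  have t2' : 0 ≤ rh l * Real.sinh g / (R * T) := by positivity
  have t3 : p * T * FAg p l g * FAl p l g / R ≤ 160 / p ^ 4 * rh l := by
    have : p * T * FAg p l g * FAl p l g / R = (p * T) * (FAg p l g * (FAl p l g * (1 / R))) := by ring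
    rw [this]
    have h1 : p * T ≤ 5 := by
      have := mul_le_mul_of_nonneg_left hTX hp.le
      rwa [mul_div_cancel₀ _ hp.ne'] at this
    have h3 : FAl p l g * (1 / R) ≤ 4 / p ^ 2 * rh l * (2 / p) := mul_le_mul hl1 hRi hRi0 (by positivity)
    have h4 : FAg p l g * (FAl p l g * (1 / R)) ≤ 4 / p * (4 / p ^ 2 * rh l * (2 / p)) :=
      mul_le_mul hg2 h3 (by positivity) (by positivity)
    have h5 : (p * T) * (FAg p l g * (FAl p l g * (1 / R))) ≤ 5 * (4 / p * (4 / p ^ 2 * rh l * (2 / p))) :=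
      mul_le_mul h1 h4 (by positivity) (by norm_num)
    have h6 : 5 * (4 / p * (4 / p ^ 2 * rh l * (2 / p))) = 160 / p ^ 4 * rh l := by field_simp; ring
    linarith
  have t3' : 0 ≤ p * T * FAg p l g * FAl p l g / R := by positivity
  have t4 : X * FAg p l g * (FAl p l g / T) ≤ 40 / p ^ 4 * rh l := by
    have h3 : X * FAg p l g ≤ 5 / p * (4 / p) := mul_le_mul hX hg2 hg0 (by positivity)
    have h4 : X * FAg p l g * (FAl p l g / T) ≤ 5 / p * (4 / p) * (2 / p ^ 2 * rh l) :=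
      mul_le_mul h3 hlT hlT0 (by positivity)
    have h6 : 5 / p * (4 / p) * (2 / p ^ 2 * rh l) = 40 / p ^ 4 * rh l := by field_simp; ring
    linarith
  have t4' : 0 ≤ X * FAg p l g * (FAl p l g / T) := by positivity
  have u1 : 8 / p ^ 2 * rh l ≤ 8 / p ^ 4 * rh l := by
    apply mul_le_mul_of_nonneg_right _ hr.le
    apply div_le_div_of_nonneg_left (by norm_num) (by positivity)
    exact pow_le_pow_of_le_one hp.le hp1.le (by norm_num)
  have u2 : 2 / p * rh l ≤ 2 / p ^ 4 * rh l := by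
    apply mul_le_mul_of_nonneg_right _ hr.le
    apply div_le_div_of_nonneg_left (by norm_num) (by positivity)
    have := pow_le_pow_of_le_one hp.le hp1.le (show 1 ≤ 4 by norm_num)
    simpa using this
  have u4 : 8 / p ^ 4 * rh l + 2 / p ^ 4 * rh l + 200 / p ^ 4 * rh l = 210 / p ^ 4 * rh l := by ring
  have u5 : 160 / p ^ 4 * rh l + 40 / p ^ 4 * rh l = 200 / p ^ 4 * rh l := by ring
  have u6 : 210 / p ^ 4 * rh l ≤ 250 / p ^ 4 * rh l := by
    apply mul_le_mul_of_nonneg_right _ hr.le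
    apply div_le_div_of_nonneg_right (by norm_num) (by positivity)
  rw [e, abs_le]
  constructor <;> linarith

theorem FBgl_low' {p : ℝ} (hp : 0 < p) (hp1 : p < 1) : ∃ K : ℝ, 0 < K ∧
    ∀ l g : ℝ, rh l ≤ p / 2 → 0 < g → g ≤ 1 → |FBgl p l g| ≤ K * rh l := by
  have hq : 0 < 1 - p := by linarith
  set a := 36 / (p ^ 2 * (1 - p)) with ha
  have ha0 : 0 < a := by positivity
  set X1 := 6 / (1 - p) with hX1d
  have hX10 : 0 < X1 := by positivity
  refine ⟨(2 * (X1 * a + 1) + a * ((X1 ^ 2 + 4 * X1) * a + X1)) / (p ^ 2 / 2), by positivity, ?_⟩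
  intro l g hl hg hg1
  have hR := RR_pos hp hp1 l hg
  have hT := sinh_FB_pos hp hp1 l hg
  have hT1 := sinh_FB_low hp hp1 hl hg hg1
  have hr := rh_pos l
  have hR1 := RR_ge_low hp hp1 hl g
  have hR2 := RR_le_low hp hp1 hl hg.le hg1
  obtain ⟨hX0, hX1⟩ := cosh_FB_low hp hp1 hl hg hg1
  have hS : 0 < Real.sinh g := Real.sinh_pos_iff.2 hg
  have hS2 : Real.sinh g ≤ 2 := (sinh_le_two_mul hg.le hg1).trans (by linarith)
  have hD : p ^ 2 / 2 ≤ RR p l g * Real.sinh (FB p l g) := by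
    have := mul_le_mul hR1 hT1 hp.le hR.le
    linarith
  have hTX : Real.sinh (FB p l g) ≤ X1 := (Real.sinh_lt_cosh _).le.trans hX1
  have hFg : |FBg p l g| ≤ a := FBg_low hp hp1 hl hg hg1
  have hFl : |FBl p l g| ≤ a * rh l := by
    refine (FBl_low hp hp1 hl hg hg1).trans ?_
    apply mul_le_mul_of_nonneg_right _ hr.le
    rw [ha]
    apply div_le_div_of_nonneg_right (by norm_num) (by positivity)
  have hE : |EB p l g| ≤ X1 ^ 2 + 4 * X1 := by
    unfold EB
    have hX00 := Real.cosh_pos (FB p l g)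
    rw [abs_of_nonneg (by positivity)]
    have h1 : (1 - p) * Real.sinh (FB p l g) ^ 2 ≤ X1 ^ 2 := by
      have h3 : Real.sinh (FB p l g) ^ 2 ≤ X1 ^ 2 := pow_le_pow_left₀ hT.le hTX 2
      nlinarith [sq_nonneg (Real.sinh (FB p l g))]
    have h2 : RR p l g * Real.cosh (FB p l g) ≤ 4 * X1 := mul_le_mul hR2 hX1 hX00.le (by norm_num)
    linarith
  unfold FBgl
  rw [abs_div, abs_of_pos (DB_pos hp hp1 l hg)]
  have hDB : p ^ 2 / 2 ≤ DB p l g := hD
  rw [div_mul_eq_mul_div]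
  apply div_le_div₀ (by positivity) _ (by positivity) hDB
  have n1 : |Real.sinh (FB p l g) * FBl p l g| ≤ X1 * (a * rh l) := by
    rw [abs_mul, abs_of_pos hT]
    exact mul_le_mul hTX hFl (abs_nonneg _) hX10.le
  have n2 : |Real.sinh g * (Real.sinh (FB p l g) * FBl p l g + rh l)| ≤ 2 * ((X1 * a + 1) * rh l) := by
    rw [abs_mul, abs_of_pos hS]
    apply mul_le_mul hS2 _ (abs_nonneg _) (by norm_num)
    refine (abs_add_le _ _).trans ?_
    rw [abs_of_pos hr]
    linarith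
  have n3 : |EB p l g * FBl p l g| ≤ (X1 ^ 2 + 4 * X1) * (a * rh l) := by
    rw [abs_mul]
    exact mul_le_mul hE hFl (abs_nonneg _) (by positivity)
  have n4 : |rh l * Real.sinh (FB p l g)| ≤ rh l * X1 := by
    rw [abs_mul, abs_of_pos hr, abs_of_pos hT]
    exact mul_le_mul_of_nonneg_left hTX hr.le
  have n5 : |FBg p l g * (EB p l g * FBl p l g + rh l * Real.sinh (FB p l g))|
      ≤ a * ((X1 ^ 2 + 4 * X1) * (a * rh l) + rh l * X1) := by
    rw [abs_mul]
    apply mul_le_mul hFg _ (abs_nonneg _) ha0.le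
    exact (abs_add_le _ _).trans (add_le_add n3 n4)
  refine (abs_sub _ _).trans ?_
  refine (add_le_add n2 n5).trans (le_of_eq ?_)
  ring

/-- the field `left` of `FHyp` for `F_A` -/
theorem left_A {p : ℝ} (hp : 0 < p) (hp1 : p < 1) :
    ∃ K, ∀ l g, Pool.Agent.H24.EH.rho l ≤ p / 2 → 0 < g → g ≤ 1 →
    |FAl p l g| ≤ K * Pool.Agent.H24.EH.rho l ∧ |FAg p l g| ≤ K ∧
      |FAgl p l g| ≤ K * Pool.Agent.H24.EH.rho l := by
  refine ⟨250 / p ^ 4, fun l g hl hg hg1 => ?_⟩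
  change rh l ≤ p / 2 at hl
  change |FAl p l g| ≤ _ * rh l ∧ _ ∧ |FAgl p l g| ≤ _ * rh l
  have hr := rh_pos l
  obtain ⟨h1, h2, -⟩ := FAl_low hp hp1 hl hg hg1
  obtain ⟨h3, h4⟩ := FAg_low hp hp1 hl hg hg1
  refine ⟨?_, ?_, FAgl_low' hp hp1 hl hg hg1⟩
  · rw [abs_of_nonneg h1]
    refine h2.trans ?_
    apply mul_le_mul_of_nonneg_right _ hr.le
    apply div_le_div₀ (by norm_num) (by norm_num) (by positivity)
    exact pow_le_pow_of_le_one hp.le hp1.le (by norm_num)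
  · rw [abs_of_nonneg h3]
    refine h4.trans ?_
    apply div_le_div₀ (by norm_num) (by norm_num) (by positivity)
    have := pow_le_pow_of_le_one hp.le hp1.le (show 1 ≤ 4 by norm_num)
    simpa using this

/-- the field `left` of `FHyp` for `F_B` -/
theorem left_B {p : ℝ} (hp : 0 < p) (hp1 : p < 1) :
    ∃ K, ∀ l g, Pool.Agent.H24.EH.rho l ≤ p / 2 → 0 < g → g ≤ 1 →
    |FBl p l g| ≤ K * Pool.Agent.H24.EH.rho l ∧ |FBg p l g| ≤ K ∧
      |FBgl p l g| ≤ K * Pool.Agent.H24.EH.rho l := by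
  have hq : 0 < 1 - p := by linarith
  obtain ⟨K, hK, hb⟩ := FBgl_low' hp hp1
  have ha : 0 < 36 / (p ^ 2 * (1 - p)) := by positivity
  refine ⟨K + 36 / (p ^ 2 * (1 - p)), fun l g hl hg hg1 => ?_⟩
  change rh l ≤ p / 2 at hl
  change |FBl p l g| ≤ _ * rh l ∧ _ ∧ |FBgl p l g| ≤ _ * rh l
  have hr := rh_pos l
  refine ⟨?_, ?_, ?_⟩
  · refine (FBl_low hp hp1 hl hg hg1).trans ?_
    apply mul_le_mul_of_nonneg_right _ hr.le
    have : 16 / (p ^ 2 * (1 - p)) ≤ 36 / (p ^ 2 * (1 - p)) := by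
      apply div_le_div_of_nonneg_right (by norm_num) (by positivity)
    linarith
  · refine (FBg_low hp hp1 hl hg hg1).trans ?_
    linarith
  · refine (hb l g hl hg hg1).trans ?_
    apply mul_le_mul_of_nonneg_right _ hr.le
    linarith

end Pool.Agent.H98.EH
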