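import Pool.Agent.H10.EH.FC

set_option autoImplicit false

namespace Pool.Agent.H98.EH
open Real Pool.EH

/-! ### elementary -/

theorem half_sq_le_cosh_sub_one (x : ℝ) : x ^ 2 / 2 ≤ Real.cosh x - 1 := by
  have h1 : Real.cosh x = 1 + 2 * Real.sinh (x / 2) ^ 2 := by
    have h := Real.cosh_two_mul (x / 2)
    have h2 := Real.cosh_sq (x / 2)
    rw [show 2 * (x / 2) = x by ring] at h
    linarith
  have h2 : (x / 2) ^ 2 ≤ Real.sinh (x / 2) ^ 2 := by
    rw [← sq_abs (x / 2), ← sq_abs (Real.sinh (x / 2)), Real.abs_sinh]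
    have := Real.self_le_sinh_iff.2 (abs_nonneg (x / 2))
    have h3 := abs_nonneg (x / 2)
    nlinarith
  linarith

theorem cosh_sub_one_le_sq {g : ℝ} (hg : 0 ≤ g) (hg1 : g ≤ 1) : Real.cosh g - 1 ≤ g ^ 2 := by
  have h := Real.cosh_le_exp_half_sq g
  have h5 : Real.exp (g ^ 2 / 2) ≤ 1 / (1 - g ^ 2 / 2) := by
    have := Real.one_sub_le_exp_neg (g ^ 2 / 2)
    rw [le_div_iff₀ (by nlinarith)]
    have h6 := Real.exp_pos (g ^ 2 / 2)
    have h7 : Real.exp (g ^ 2 / 2) * Real.exp (-(g ^ 2 / 2)) = 1 := by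
      rw [← Real.exp_add]; simp
    nlinarith
  have h6 : 1 / (1 - g ^ 2 / 2) ≤ 1 + g ^ 2 := by
    have h8 : g ^ 2 ≤ 1 := by nlinarith
    rw [div_le_iff₀ (by linarith)]
    nlinarith [sq_nonneg g]
  linarith

theorem cosh_le_two {g : ℝ} (hg : 0 ≤ g) (hg1 : g ≤ 1) : Real.cosh g ≤ 2 := by
  have := cosh_sub_one_le_sq hg hg1
  nlinarith

theorem sinh_le_two_mul {g : ℝ} (hg : 0 ≤ g) (hg1 : g ≤ 1) : Real.sinh g ≤ 2 * g := by
  have h1 := cosh_sub_one_le_sq hg hg1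
  have h2 := cosh_le_two hg hg1
  have h3 := Real.sinh_sq g
  have h0 : 0 ≤ Real.sinh g := Real.sinh_nonneg_iff.2 hg
  have h4 := Real.one_le_cosh g
  have h5 : Real.sinh g ^ 2 ≤ (2 * g) ^ 2 := by nlinarith
  exact le_of_sq_le_sq h5 (by linarith)

/-! ### (NEAR): `F_A ≤ K √g` for `ρ ≤ p`, `F_B ≤ K √g` for `p ≤ ρ` -/

theorem RR_le {p : ℝ} (hp : 0 < p) (hp1 : p < 1) (l : ℝ) {g : ℝ} (hg : 0 ≤ g) :
    RR p l g ≤ |rh l - p * Real.cosh g| + Real.sinh g := by
  have hS : 0 ≤ Real.sinh g := Real.sinh_nonneg_iff.2 hg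
  unfold RR
  rw [Real.sqrt_le_left (by positivity)]
  have h1 : p * (1 - p) ≤ 1 := by nlinarith
  have h2 := abs_nonneg (rh l - p * Real.cosh g)
  have h3 := sq_abs (rh l - p * Real.cosh g)
  nlinarith [sq_nonneg (Real.sinh g), mul_nonneg h2 hS]

theorem FA_near {p : ℝ} (hp : 0 < p) (hp1 : p < 1) {l : ℝ} (hl : rh l ≤ p) {g : ℝ} (hg : 0 < g)
    (hg1 : g ≤ 1) : FA p l g ≤ Real.sqrt (6 / p) * Real.sqrt g := by
  rw [← Real.sqrt_mul (by positivity)]
  apply Real.le_sqrt_of_sq_le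
  have h1 := half_sq_le_cosh_sub_one (FA p l g)
  have h2 := RR_le hp hp1 l hg.le
  have h3 := cosh_sub_one_le_sq hg.le hg1
  have h4 := sinh_le_two_mul hg.le hg1
  have h5 := Real.one_le_cosh g
  have h6 : |rh l - p * Real.cosh g| = p * Real.cosh g - rh l := by
    rw [abs_of_nonpos (by nlinarith)]; ring
  have h7 : Real.cosh (FA p l g) - 1 ≤ 3 * g / p := by
    rw [cosh_FA hp hp1 l hg, le_div_iff₀ hp, sub_mul, div_mul_cancel₀ _ hp.ne']
    rw [h6] at h2
    have : g ^ 2 ≤ g := by nlinarith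
    nlinarith
  have h8 : 6 / p * g = 2 * (3 * g / p) := by ring
  rw [h8]
  linarith

theorem FB_near {p : ℝ} (hp : 0 < p) (hp1 : p < 1) {l : ℝ} (hl : p ≤ rh l) {g : ℝ} (hg : 0 < g)
    (hg1 : g ≤ 1) : FB p l g ≤ Real.sqrt (8 / (1 - p)) * Real.sqrt g := by
  have hq : 0 < 1 - p := by linarith
  rw [← Real.sqrt_mul (by positivity)]
  apply Real.le_sqrt_of_sq_le
  have h1 := half_sq_le_cosh_sub_one (FB p l g)
  have h2 := RR_le hp hp1 l hg.le
  have h3 := cosh_sub_one_le_sq hg.le hg1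
  have h4 := sinh_le_two_mul hg.le hg1
  have h5 := Real.one_le_cosh g
  have h6 : |rh l - p * Real.cosh g| ≤ rh l - p + p * (Real.cosh g - 1) := by
    rw [abs_le]
    constructor <;> nlinarith
  have h7 : Real.cosh (FB p l g) - 1 ≤ 4 * g / (1 - p) := by
    rw [cosh_FB hp hp1 l hg, le_div_iff₀ hq, sub_mul, div_mul_cancel₀ _ hq.ne']
    have : g ^ 2 ≤ g := by nlinarith
    nlinarith
  have h8 : 8 / (1 - p) * g = 2 * (4 * g / (1 - p)) := by ring
  rw [h8]
  linarith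

/-! ### (U-): bounds for `ρ ≤ p/2`, `0 < g ≤ 1` -/

theorem RR_ge_abs {p : ℝ} (hp : 0 < p) (hp1 : p < 1) (l g : ℝ) :
    |rh l - p * Real.cosh g| ≤ RR p l g := by
  have hq : 0 < 1 - p := by linarith
  unfold RR
  apply Real.le_sqrt_of_sq_le
  rw [sq_abs]
  have : 0 ≤ p * (1 - p) * Real.sinh g ^ 2 := by positivity
  linarith

theorem RR_ge_low {p : ℝ} (hp : 0 < p) (hp1 : p < 1) {l : ℝ} (hl : rh l ≤ p / 2) (g : ℝ) :
    p / 2 ≤ RR p l g := by
  have h := RR_ge_abs hp hp1 l g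
  have h1 := neg_abs_le (rh l - p * Real.cosh g)
  have h2 := Real.one_le_cosh g
  nlinarith

theorem RR_le_low {p : ℝ} (hp : 0 < p) (hp1 : p < 1) {l : ℝ} (hl : rh l ≤ p / 2) {g : ℝ} (hg : 0 ≤ g)
    (hg1 : g ≤ 1) : RR p l g ≤ 4 := by
  have h := RR_le hp hp1 l hg
  have h1 := cosh_le_two hg hg1
  have h2 := sinh_le_two_mul hg hg1
  have h3 := rh_pos l
  have h4 := Real.one_le_cosh g
  have h5 : |rh l - p * Real.cosh g| = p * Real.cosh g - rh l := by
    rw [abs_of_nonpos (by nlinarith)]; ring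
  rw [h5] at h
  nlinarith

/-- `p² sinh² F_A = 2 ρ Y + p S²`, `Y = R + ρ - p C`. -/
theorem sinh_FA_sq {p : ℝ} (hp : 0 < p) (hp1 : p < 1) (l : ℝ) {g : ℝ} (hg : 0 < g) :
    p ^ 2 * Real.sinh (FA p l g) ^ 2
      = 2 * rh l * (RR p l g + rh l - p * Real.cosh g) + p * Real.sinh g ^ 2 := by
  have h1 := rel_A hp hp1 l hg
  have h2 := RR_eq_A hp hp1 l hg
  rw [h2]
  linear_combination p * h1

theorem sinh_le_sinh_FA {p : ℝ} (hp : 0 < p) (hp1 : p < 1) (l : ℝ) {g : ℝ} (hg : 0 < g) :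
    Real.sinh g ≤ Real.sinh (FA p l g) := by
  have h1 := sinh_FA_sq hp hp1 l hg
  have h2 := RR_ge_abs hp hp1 l g
  have h3 := neg_abs_le (rh l - p * Real.cosh g)
  have h4 := rh_pos l
  have h5 := sinh_FA_pos hp hp1 l hg
  apply le_of_sq_le_sq _ h5.le
  have h6 : p * Real.sinh g ^ 2 ≤ p ^ 2 * Real.sinh (FA p l g) ^ 2 := by
    rw [h1]
    have : 0 ≤ 2 * rh l * (RR p l g + rh l - p * Real.cosh g) := by
      apply mul_nonneg (by linarith); linarith
    linarith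
  have h7 : p * Real.sinh g ^ 2 ≤ p * Real.sinh (FA p l g) ^ 2 := by
    have : p ^ 2 * Real.sinh (FA p l g) ^ 2 ≤ p * Real.sinh (FA p l g) ^ 2 := by
      apply mul_le_mul_of_nonneg_right _ (by positivity)
      nlinarith
    linarith
  exact le_of_mul_le_mul_left h7 hp

/-- `(R + ρ - p C)(R - ρ + p C) = p (1-p) S²` -/
theorem YZ_eq {p : ℝ} (hp : 0 < p) (hp1 : p < 1) (l g : ℝ) :
    (RR p l g + rh l - p * Real.cosh g) * (RR p l g - rh l + p * Real.cosh g)
      = p * (1 - p) * Real.sinh g ^ 2 := by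
  have h := RR_sq hp hp1 l g
  linear_combination h

theorem Y_nonneg {p : ℝ} (hp : 0 < p) (hp1 : p < 1) (l g : ℝ) :
    0 ≤ RR p l g + rh l - p * Real.cosh g := by
  have h2 := RR_ge_abs hp hp1 l g
  have h3 := neg_abs_le (rh l - p * Real.cosh g)
  linarith

theorem Y_le_low {p : ℝ} (hp : 0 < p) (hp1 : p < 1) {l : ℝ} (hl : rh l ≤ p / 2) (g : ℝ) :
    RR p l g + rh l - p * Real.cosh g ≤ Real.sinh g ^ 2 := by
  have h := YZ_eq hp hp1 l g
  have h1 := RR_ge_low hp hp1 hl g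
  have h2 := Y_nonneg hp hp1 l g
  have h3 := Real.one_le_cosh g
  have hZ : p ≤ RR p l g - rh l + p * Real.cosh g := by nlinarith
  have h4 : p * (RR p l g + rh l - p * Real.cosh g) ≤ p * (1 - p) * Real.sinh g ^ 2 := by
    rw [← h]; nlinarith
  have h5 : p * (1 - p) * Real.sinh g ^ 2 ≤ p * Real.sinh g ^ 2 := by
    have : 0 ≤ p * p * Real.sinh g ^ 2 := by positivity
    nlinarith
  exact le_of_mul_le_mul_left (h4.trans h5) hp

theorem FAl_eq_Y {p : ℝ} (hp : 0 < p) (hp1 : p < 1) (l : ℝ) {g : ℝ} (hg : 0 < g) :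
    FAl p l g = rh l * (RR p l g + rh l - p * Real.cosh g) / (p * (RR p l g * Real.sinh (FA p l g))) := by
  unfold FAl
  have h2 := RR_eq_A hp hp1 l hg
  have hR := RR_pos hp hp1 l hg
  have hT := sinh_FA_pos hp hp1 l hg
  rw [div_eq_div_iff (by positivity) (by positivity)]
  rw [show RR p l g + rh l - p * Real.cosh g = p * (Real.cosh (FA p l g) - Real.cosh g) by rw [h2]; ring]
  ring

/-- `|F_l| ≤ 4 ρ / p²`, and `|F_l| ≤ (2 ρ / p²) sinh F`. -/
theorem FAl_low {p : ℝ} (hp : 0 < p) (hp1 : p < 1) {l : ℝ} (hl : rh l ≤ p / 2) {g : ℝ} (hg : 0 < g)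
    (hg1 : g ≤ 1) : 0 ≤ FAl p l g ∧ FAl p l g ≤ 4 / p ^ 2 * rh l ∧
      FAl p l g ≤ 2 / p ^ 2 * rh l * Real.sinh (FA p l g) := by
  have hR := RR_pos hp hp1 l hg
  have hT := sinh_FA_pos hp hp1 l hg
  have hr := rh_pos l
  have hY0 := Y_nonneg hp hp1 l g
  have hY := Y_le_low hp hp1 hl g
  have hR1 := RR_ge_low hp hp1 hl g
  have hST := sinh_le_sinh_FA hp hp1 l hg
  have hS : 0 < Real.sinh g := Real.sinh_pos_iff.2 hg
  have hS2 := sinh_le_two_mul hg.le hg1
  rw [FAl_eq_Y hp hp1 l hg]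
  have key : ∀ M : ℝ, rh l * Real.sinh g ^ 2 ≤ M * (p * (p / 2) * Real.sinh (FA p l g)) → 0 ≤ M →
      rh l * (RR p l g + rh l - p * Real.cosh g) / (p * (RR p l g * Real.sinh (FA p l g))) ≤ M := by
    intro M hM hM0
    rw [div_le_iff₀ (by positivity)]
    have h1 : rh l * (RR p l g + rh l - p * Real.cosh g) ≤ rh l * Real.sinh g ^ 2 :=
      mul_le_mul_of_nonneg_left hY hr.le
    have h2 : M * (p * (p / 2) * Real.sinh (FA p l g)) ≤ M * (p * (RR p l g * Real.sinh (FA p l g))) := by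
      apply mul_le_mul_of_nonneg_left _ hM0
      rw [mul_assoc]
      apply mul_le_mul_of_nonneg_left _ hp.le
      exact mul_le_mul_of_nonneg_right hR1 hT.le
    linarith
  refine ⟨by positivity, key _ ?_ (by positivity), key _ ?_ (by positivity)⟩
  · have e1 : 4 / p ^ 2 * rh l * (p * (p / 2) * Real.sinh (FA p l g)) = rh l * (2 * Real.sinh (FA p l g)) := by
      field_simp; ring
    rw [e1]
    apply mul_le_mul_of_nonneg_left _ hr.le
    nlinarith
  · have e1 : 2 / p ^ 2 * rh l * Real.sinh (FA p l g) * (p * (p / 2) * Real.sinh (FA p l g))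
        = rh l * Real.sinh (FA p l g) ^ 2 := by
      field_simp
    rw [e1]
    apply mul_le_mul_of_nonneg_left _ hr.le
    nlinarith

theorem FAg_low {p : ℝ} (hp : 0 < p) (hp1 : p < 1) {l : ℝ} (hl : rh l ≤ p / 2) {g : ℝ} (hg : 0 < g)
    (hg1 : g ≤ 1) : 0 ≤ FAg p l g ∧ FAg p l g ≤ 4 / p := by
  have hR := RR_pos hp hp1 l hg
  have hT := sinh_FA_pos hp hp1 l hg
  have hr := rh_pos l
  have hR1 := RR_ge_low hp hp1 hl g
  have hST := sinh_le_sinh_FA hp hp1 l hg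
  have hS : 0 < Real.sinh g := Real.sinh_pos_iff.2 hg
  have hC := cosh_le_two hg.le hg1
  have hC1 := Real.one_le_cosh g
  have h0 : 0 ≤ Real.cosh g - rh l := by linarith
  unfold FAg
  refine ⟨by positivity, ?_⟩
  rw [div_le_iff₀ (by positivity)]
  have h1 : Real.sinh g * (Real.cosh g - rh l) ≤ Real.sinh (FA p l g) * 2 :=
    mul_le_mul hST (by linarith) h0 hT.le
  have h2 : Real.sinh (FA p l g) * 2 = 4 / p * ((p / 2) * Real.sinh (FA p l g)) := by
    field_simp; ring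
  rw [h2] at h1
  refine h1.trans ?_
  apply mul_le_mul_of_nonneg_left _ (by positivity)
  exact mul_le_mul_of_nonneg_right hR1 hT.le

theorem cosh_FA_low {p : ℝ} (hp : 0 < p) (hp1 : p < 1) {l : ℝ} (hl : rh l ≤ p / 2) {g : ℝ} (hg : 0 < g)
    (hg1 : g ≤ 1) : Real.cosh (FA p l g) ≤ 5 / p := by
  rw [cosh_FA hp hp1 l hg]
  apply div_le_div_of_nonneg_right _ hp.le
  have := RR_le_low hp hp1 hl hg.le hg1
  linarith

theorem FAgl_low {p : ℝ} (hp : 0 < p) (hp1 : p < 1) {l : ℝ} (hl : rh l ≤ p / 2) {g : ℝ} (hg : 0 < g)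
    (hg1 : g ≤ 1) : |FAgl p l g| ≤ 250 / p ^ 4 := by
  have hR := RR_pos hp hp1 l hg
  have hT := sinh_FA_pos hp hp1 l hg
  have hr := rh_pos l
  have hR1 := RR_ge_low hp hp1 hl g
  have hST := sinh_le_sinh_FA hp hp1 l hg
  have hS : 0 < Real.sinh g := Real.sinh_pos_iff.2 hg
  obtain ⟨hl0, hl1, hl2⟩ := FAl_low hp hp1 hl hg hg1
  obtain ⟨hg0, hg2⟩ := FAg_low hp hp1 hl hg hg1
  have hX := cosh_FA_low hp hp1 hl hg hg1
  have hTX : Real.sinh (FA p l g) ≤ 5 / p := (Real.sinh_lt_cosh _).le.trans hX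
  have hX0 := Real.cosh_pos (FA p l g)
  set T := Real.sinh (FA p l g) with hTd
  set X := Real.cosh (FA p l g) with hXd
  set R := RR p l g with hRd
  -- decomposition
  have e : FAgl p l g = rh l * FAg p l g / R - rh l * Real.sinh g / (R * T)
      - (p * T * FAg p l g * FAl p l g / R + X * FAg p l g * (FAl p l g / T)) := by
    unfold FAgl DA EA
    rw [← hTd, ← hXd, ← hRd]
    field_simp
  have hRi : 1 / R ≤ 2 / p := by
    rw [div_le_div_iff₀ hR hp]; linarith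
  have hRi0 : 0 ≤ 1 / R := by positivity
  have hlT : FAl p l g / T ≤ 2 / p ^ 2 * rh l := by
    rw [div_le_iff₀ hT]; exact hl2
  have hlT0 : 0 ≤ FAl p l g / T := by positivity
  have hrp : rh l ≤ p := by linarith
  -- term 1
  have t1 : rh l * FAg p l g / R ≤ 8 / p := by
    have : rh l * FAg p l g / R = rh l * (FAg p l g * (1 / R)) := by ring
    rw [this]
    have h3 : FAg p l g * (1 / R) ≤ 4 / p * (2 / p) := mul_le_mul hg2 hRi hRi0 (by positivity)
    have h4 : rh l * (FAg p l g * (1 / R)) ≤ p * (4 / p * (2 / p)) :=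
      mul_le_mul hrp h3 (by positivity) hp.le
    have h5 : p * (4 / p * (2 / p)) = 8 / p := by field_simp; ring
    linarith
  have t1' : 0 ≤ rh l * FAg p l g / R := by positivity
  have t2 : rh l * Real.sinh g / (R * T) ≤ 2 := by
    rw [div_le_iff₀ (by positivity)]
    have h3 : rh l * Real.sinh g ≤ (p / 2) * T := mul_le_mul hl hST hS.le (by positivity)
    have h4 : (p / 2) * T ≤ R * T := mul_le_mul_of_nonneg_right hR1 hT.le
    nlinarith [mul_pos hR hT]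
  have t2' : 0 ≤ rh l * Real.sinh g / (R * T) := by positivity
  have t3 : p * T * FAg p l g * FAl p l g / R ≤ 160 / p ^ 3 := by
    have : p * T * FAg p l g * FAl p l g / R = (p * T) * (FAg p l g * (FAl p l g * (1 / R))) := by ring
    rw [this]
    have h1 : p * T ≤ 5 := by
      have := mul_le_mul_of_nonneg_left hTX hp.le
      rwa [mul_div_cancel₀ _ hp.ne'] at this
    have h2 : FAl p l g ≤ 4 / p := by
      refine hl1.trans ?_
      have h6 : 4 / p ^ 2 * rh l ≤ 4 / p ^ 2 * p := by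
        apply mul_le_mul_of_nonneg_left hrp (by positivity)
      have h7 : 4 / p ^ 2 * p = 4 / p := by field_simp
      linarith
    have h3 : FAl p l g * (1 / R) ≤ 4 / p * (2 / p) := mul_le_mul h2 hRi hRi0 (by positivity)
    have h4 : FAg p l g * (FAl p l g * (1 / R)) ≤ 4 / p * (4 / p * (2 / p)) :=
      mul_le_mul hg2 h3 (by positivity) (by positivity)
    have h5 : (p * T) * (FAg p l g * (FAl p l g * (1 / R))) ≤ 5 * (4 / p * (4 / p * (2 / p))) :=
      mul_le_mul h1 h4 (by positivity) (by norm_num)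
    have h6 : 5 * (4 / p * (4 / p * (2 / p))) = 160 / p ^ 3 := by field_simp; ring
    linarith
  have t3' : 0 ≤ p * T * FAg p l g * FAl p l g / R := by positivity
  have t4 : X * FAg p l g * (FAl p l g / T) ≤ 40 / p ^ 3 := by
    have h2 : FAl p l g / T ≤ 2 / p := by
      refine hlT.trans ?_
      have h6 : 2 / p ^ 2 * rh l ≤ 2 / p ^ 2 * p := by
        apply mul_le_mul_of_nonneg_left hrp (by positivity)
      have h7 : 2 / p ^ 2 * p = 2 / p := by field_simp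
      linarith
    have h3 : X * FAg p l g ≤ 5 / p * (4 / p) := mul_le_mul hX hg2 hg0 (by positivity)
    have h4 : X * FAg p l g * (FAl p l g / T) ≤ 5 / p * (4 / p) * (2 / p) :=
      mul_le_mul h3 h2 hlT0 (by positivity)
    have h6 : 5 / p * (4 / p) * (2 / p) = 40 / p ^ 3 := by field_simp; ring
    linarith
  have t4' : 0 ≤ X * FAg p l g * (FAl p l g / T) := by positivity
  have hp2 : p ^ 3 ≤ 1 := pow_le_one₀ hp.le hp1.le
  have u1 : 8 / p ≤ 8 / p ^ 4 := by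
    apply div_le_div_of_nonneg_left (by norm_num) (by positivity)
    nlinarith
  have u2 : (2:ℝ) ≤ 2 / p ^ 4 := by
    rw [le_div_iff₀ (by positivity)]
    have : p ^ 4 ≤ 1 := pow_le_one₀ hp.le hp1.le
    linarith
  have u3 : 200 / p ^ 3 ≤ 200 / p ^ 4 := by
    apply div_le_div_of_nonneg_left (by norm_num) (by positivity)
    have : 0 ≤ p ^ 3 := by positivity
    nlinarith
  have u4 : 8 / p ^ 4 + 2 / p ^ 4 + 200 / p ^ 4 = 210 / p ^ 4 := by ring
  have u5 : 160 / p ^ 3 + 40 / p ^ 3 = 200 / p ^ 3 := by ring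
  have u6 : 210 / p ^ 4 ≤ 250 / p ^ 4 := by
    apply div_le_div_of_nonneg_right (by norm_num) (by positivity)
  rw [e, abs_le]
  constructor <;> linarith

/-! B side -/

theorem cosh_FB_low {p : ℝ} (hp : 0 < p) (hp1 : p < 1) {l : ℝ} (hl : rh l ≤ p / 2) {g : ℝ} (hg : 0 < g)
    (hg1 : g ≤ 1) : 1 + p ≤ Real.cosh (FB p l g) ∧ Real.cosh (FB p l g) ≤ 6 / (1 - p) := by
  have hq : 0 < 1 - p := by linarith
  rw [cosh_FB hp hp1 l hg]
  have h1 := RR_le_low hp hp1 hl hg.le hg1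
  have h2 := RR_ge_abs hp hp1 l g
  have h3 := neg_abs_le (rh l - p * Real.cosh g)
  have h4 := Real.one_le_cosh g
  have h5 := cosh_le_two hg.le hg1
  have h6 := rh_pos l
  constructor
  · rw [le_div_iff₀ hq]
    nlinarith
  · apply div_le_div_of_nonneg_right _ hq.le
    linarith

theorem sinh_FB_low {p : ℝ} (hp : 0 < p) (hp1 : p < 1) {l : ℝ} (hl : rh l ≤ p / 2) {g : ℝ} (hg : 0 < g)
    (hg1 : g ≤ 1) : p ≤ Real.sinh (FB p l g) := by
  have h1 := (cosh_FB_low hp hp1 hl hg hg1).1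
  have h2 := Real.sinh_sq (FB p l g)
  have hT := sinh_FB_pos hp hp1 l hg
  apply le_of_sq_le_sq _ hT.le
  nlinarith

theorem FBl_low {p : ℝ} (hp : 0 < p) (hp1 : p < 1) {l : ℝ} (hl : rh l ≤ p / 2) {g : ℝ} (hg : 0 < g)
    (hg1 : g ≤ 1) : |FBl p l g| ≤ 16 / (p ^ 2 * (1 - p)) * rh l := by
  have hq : 0 < 1 - p := by linarith
  have hR := RR_pos hp hp1 l hg
  have hT := sinh_FB_pos hp hp1 l hg
  have hT1 := sinh_FB_low hp hp1 hl hg hg1
  have hr := rh_pos l
  have hR1 := RR_ge_low hp hp1 hl g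
  obtain ⟨hX0, hX1⟩ := cosh_FB_low hp hp1 hl hg hg1
  have hC := cosh_le_two hg.le hg1
  have hC1 := Real.one_le_cosh g
  have hD : p ^ 2 / 2 ≤ RR p l g * Real.sinh (FB p l g) := by
    have := mul_le_mul hR1 hT1 hp.le hR.le
    linarith
  have hq1 : 1 ≤ 1 / (1 - p) := by rw [le_div_iff₀ hq]; linarith
  have hXC : |Real.cosh (FB p l g) - Real.cosh g| ≤ 8 / (1 - p) := by
    have h8 : 8 / (1 - p) = 6 / (1 - p) + 2 * (1 / (1 - p)) := by ring
    rw [h8, abs_le]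
    have h9 : 0 ≤ 6 / (1 - p) := by positivity
    constructor <;> linarith
  unfold FBl
  rw [abs_div, abs_neg, abs_mul, abs_of_pos hr, abs_of_pos (mul_pos hR hT), div_le_iff₀ (mul_pos hR hT)]
  have h1 : rh l * |Real.cosh (FB p l g) - Real.cosh g| ≤ rh l * (8 / (1 - p)) :=
    mul_le_mul_of_nonneg_left hXC hr.le
  have h2 : rh l * (8 / (1 - p)) = 16 / (p ^ 2 * (1 - p)) * rh l * (p ^ 2 / 2) := by
    field_simp; ring
  rw [h2] at h1
  refine h1.trans ?_
  apply mul_le_mul_of_nonneg_left hD (by positivity)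

theorem FBg_low {p : ℝ} (hp : 0 < p) (hp1 : p < 1) {l : ℝ} (hl : rh l ≤ p / 2) {g : ℝ} (hg : 0 < g)
    (hg1 : g ≤ 1) : |FBg p l g| ≤ 36 / (p ^ 2 * (1 - p)) := by
  have hq : 0 < 1 - p := by linarith
  have hR := RR_pos hp hp1 l hg
  have hT := sinh_FB_pos hp hp1 l hg
  have hT1 := sinh_FB_low hp hp1 hl hg hg1
  have hr := rh_pos l
  have hR1 := RR_ge_low hp hp1 hl g
  obtain ⟨hX0, hX1⟩ := cosh_FB_low hp hp1 hl hg hg1
  have hC := cosh_le_two hg.le hg1
  have hC1 := Real.one_le_cosh g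
  have hS : 0 < Real.sinh g := Real.sinh_pos_iff.2 hg
  have hS2 : Real.sinh g ≤ 2 := (sinh_le_two_mul hg.le hg1).trans (by linarith)
  have hD : p ^ 2 / 2 ≤ RR p l g * Real.sinh (FB p l g) := by
    have := mul_le_mul hR1 hT1 hp.le hR.le
    linarith
  have hq1 : 1 ≤ 1 / (1 - p) := by rw [le_div_iff₀ hq]; linarith
  have hXC : |Real.cosh (FB p l g) - Real.cosh g + rh l| ≤ 9 / (1 - p) := by
    have h8 : 9 / (1 - p) = 6 / (1 - p) + 3 * (1 / (1 - p)) := by ring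
    rw [h8, abs_le]
    have h9 : 0 ≤ 6 / (1 - p) := by positivity
    constructor <;> linarith
  unfold FBg
  rw [abs_div, abs_mul, abs_of_pos hS, abs_of_pos (mul_pos hR hT), div_le_iff₀ (mul_pos hR hT)]
  have h1 : Real.sinh g * |Real.cosh (FB p l g) - Real.cosh g + rh l| ≤ 2 * (9 / (1 - p)) :=
    mul_le_mul hS2 hXC (abs_nonneg _) (by norm_num)
  have h2 : 2 * (9 / (1 - p)) = 36 / (p ^ 2 * (1 - p)) * (p ^ 2 / 2) := by
    field_simp; ring
  rw [h2] at h1
  refine h1.trans ?_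
  apply mul_le_mul_of_nonneg_left hD (by positivity)

theorem FBgl_low {p : ℝ} (hp : 0 < p) (hp1 : p < 1) : ∃ K : ℝ, 0 < K ∧
    ∀ l g : ℝ, rh l ≤ p / 2 → 0 < g → g ≤ 1 → |FBgl p l g| ≤ K := by
  have hq : 0 < 1 - p := by linarith
  set a := 36 / (p ^ 2 * (1 - p)) with ha
  have ha0 : 0 < a := by positivity
  set X1 := 6 / (1 - p) with hX1d
  have hX10 : 0 < X1 := by positivity
  refine ⟨(2 * (X1 * a + 1) + a * ((X1 ^ 2 + 4 * X1) * a + X1)) / (p ^ 2 / 2), by positivity, ?_⟩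
  intro l g hl hg hg1
  have hR := RR_pos hp hp1 l hg
  have hT := sinh_FB_pos hp hp1 l hg
  have hT1 := sinh_FB_low hp hp1 hl hg hg1
  have hr := rh_pos l
  have hR1 := RR_ge_low hp hp1 hl g
  have hR2 := RR_le_low hp hp1 hl hg.le hg1
  obtain ⟨hX0, hX1⟩ := cosh_FB_low hp hp1 hl hg hg1
  have hS : 0 < Real.sinh g := Real.sinh_pos_iff.2 hg
  have hS2 : Real.sinh g ≤ 2 := (sinh_le_two_mul hg.le hg1).trans (by linarith)
  have hD : p ^ 2 / 2 ≤ RR p l g * Real.sinh (FB p l g) := by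
    have := mul_le_mul hR1 hT1 hp.le hR.le
    linarith
  have hTX : Real.sinh (FB p l g) ≤ X1 := (Real.sinh_lt_cosh _).le.trans hX1
  have hFg : |FBg p l g| ≤ a := FBg_low hp hp1 hl hg hg1
  have hFl : |FBl p l g| ≤ a := by
    refine (FBl_low hp hp1 hl hg hg1).trans ?_
    have h1 : 16 / (p ^ 2 * (1 - p)) * rh l ≤ 16 / (p ^ 2 * (1 - p)) * 1 := by
      apply mul_le_mul_of_nonneg_left (by linarith) (by positivity)
    have h2 : 16 / (p ^ 2 * (1 - p)) * 1 ≤ a := by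
      rw [ha, mul_one]
      apply div_le_div_of_nonneg_right (by norm_num) (by positivity)
    linarith
  have hE : |EB p l g| ≤ X1 ^ 2 + 4 * X1 := by
    unfold EB
    have hX00 := Real.cosh_pos (FB p l g)
    rw [abs_of_nonneg (by positivity)]
    have h1 : (1 - p) * Real.sinh (FB p l g) ^ 2 ≤ X1 ^ 2 := by
      have h3 : Real.sinh (FB p l g) ^ 2 ≤ X1 ^ 2 := pow_le_pow_left₀ hT.le hTX 2
      nlinarith [sq_nonneg (Real.sinh (FB p l g))]
    have h2 : RR p l g * Real.cosh (FB p l g) ≤ 4 * X1 := mul_le_mul hR2 hX1 hX00.le (by norm_num)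
    linarith
  unfold FBgl
  rw [abs_div, abs_of_pos (DB_pos hp hp1 l hg)]
  have hDB : p ^ 2 / 2 ≤ DB p l g := hD
  apply div_le_div₀ (by positivity) _ (by positivity) hDB
  have n1 : |Real.sinh (FB p l g) * FBl p l g| ≤ X1 * a := by
    rw [abs_mul, abs_of_pos hT]
    exact mul_le_mul hTX hFl (abs_nonneg _) hX10.le
  have n2 : |Real.sinh g * (Real.sinh (FB p l g) * FBl p l g + rh l)| ≤ 2 * (X1 * a + 1) := by
    rw [abs_mul, abs_of_pos hS]
    apply mul_le_mul hS2 _ (abs_nonneg _) (by norm_num)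
    refine (abs_add_le _ _).trans ?_
    rw [abs_of_pos hr]
    linarith
  have n3 : |EB p l g * FBl p l g| ≤ (X1 ^ 2 + 4 * X1) * a := by
    rw [abs_mul]
    exact mul_le_mul hE hFl (abs_nonneg _) (by positivity)
  have n4 : |rh l * Real.sinh (FB p l g)| ≤ X1 := by
    rw [abs_mul, abs_of_pos hr, abs_of_pos hT]
    have : rh l * Real.sinh (FB p l g) ≤ 1 * X1 := mul_le_mul (by linarith) hTX hT.le (by norm_num)
    linarith
  have n5 : |FBg p l g * (EB p l g * FBl p l g + rh l * Real.sinh (FB p l g))|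
      ≤ a * ((X1 ^ 2 + 4 * X1) * a + X1) := by
    rw [abs_mul]
    apply mul_le_mul hFg _ (abs_nonneg _) ha0.le
    exact (abs_add_le _ _).trans (add_le_add n3 n4)
  exact (abs_sub _ _).trans (add_le_add n2 n5)

end Pool.Agent.H98.EH
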